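import Pool.Agent.H557R2.Mve.Red

/-!
# Shortest Path Most Vital Edges is `W[1]`-hard, parameterized by the deletion budget

The definitions used in the statement are in `Pool.Agent.H557R2.Mve.Defs` and
`Pool.Agent.H557R2.FptDefs`:
* `MostVital G τ s t k ℓ`: at most `k` edges of `G` can be deleted so that every path from `s` to
  `t` has length at least `ℓ`, the length being the sum of the edge lengths `τ`;
* `spMVE`: the pairs `(code of (M, s, t, ℓ), k)`, `M` a matrix of edge lengths (`0`: no edge),
  with `MostVital (wgraph M) (wlen M) s t k ℓ`; the parameter is `k`;
* `spMVEUnit`: the same problem for matrices with entries `0` and `1` (unit edge lengths);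
* `pClique`, `W1`, `W1Hard`: `p-Clique`, the class `W[1]` of the parameterized problems that are
  fpt-reducible to `p-Clique`, and hardness for it under fpt-reductions.
-/

set_option autoImplicit false

namespace Pool.Agent.Results.MP_40aef2_lc.WOneHard

open Pool.Agent.NPC Pool.Agent.H557R2.Fpt Pool.Agent.H557R2.Mve

/-- **Shortest Path Most Vital Edges, parameterized by the number `k` of edges that may be deleted,
is `W[1]`-hard**, with positive integer edge lengths and also when all edges have length `1`. -/
theorem result : W1Hard spMVE ∧ W1Hard spMVEUnit := ⟨w1Hard_spMVE, w1Hard_spMVEUnit⟩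

end Pool.Agent.Results.MP_40aef2_lc.WOneHard
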